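import Pool.Agent.Work.MP_4da8b1_gt.Mixed

/-!
# The list of equality cases in Q2 is incomplete for every even `n ≥ 4`

Three unit vectors of a plane at mutual angles `120°` together with an orthonormal basis of the
orthogonal complement of the plane, each taken with both signs, give `M = √(n + 2)` for every
`n ≥ 2`; for even `n ≥ 4` this configuration is not in the list of Q2.
-/

open Pool.Agent.Work.MP_4da8b1_gt

theorem Pool.Agent.Results.MP_4da8b1_gt.EqualityEven.result (n : ℕ) (hn : 4 ≤ n) (he : Even n) :
    ∃ (U : Fin (n + 1) → Finset (E n)) (c : E n), (∀ i, IsBalanced n (U i)) ∧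
      IsMaxDist n U c (√((n : ℝ) + 2)) ∧ ¬ Listed n U c :=
  main n hn he
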