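import Pool.Agent.Work.MP_4da8b1_gt_helper41.Final

/-!
# Q1 for `n ≤ 2`, for families of at most three vectors, for obtuse families, and more

In all parts the conclusion is `M(U_1, …, U_{n+1}; c) ≥ √(n + 2 + |c|²)`.
-/

open Pool.Agent.MP_4da8b1_gt_H41

theorem Pool.Agent.Results.MP_4da8b1_gt.LargeSums.result :
    -- (1) all families satisfy the criterion `Admissible`
    (∀ (n : ℕ) (U : Fin (n + 1) → Finset (EuclideanSpace ℝ (Fin n))), (∀ i, IsFamily (U i)) →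
      (∀ i, Admissible (U i)) → ∀ c, FarSum U c (√((n : ℝ) + 2 + ‖c‖ ^ 2))) ∧
    -- (2) each family contains a balanced set with at most 3 members or without acute angles
    (∀ (n : ℕ) (U : Fin (n + 1) → Finset (EuclideanSpace ℝ (Fin n))), (∀ i, IsFamily (U i)) →
      (∀ i, ∃ V ⊆ U i, Balanced V ∧ (V.card ≤ 3 ∨ Obtuse V)) →
      ∀ c, FarSum U c (√((n : ℝ) + 2 + ‖c‖ ^ 2))) ∧
    -- (3) `n ≤ 2`, all families
    (∀ n : ℕ, n ≤ 2 → ∀ U : Fin (n + 1) → Finset (EuclideanSpace ℝ (Fin n)),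
      (∀ i, IsFamily (U i)) → ∀ c, FarSum U c (√((n : ℝ) + 2 + ‖c‖ ^ 2))) ∧
    -- (4) all families have short midpoints
    (∀ (n : ℕ) (U : Fin (n + 1) → Finset (EuclideanSpace ℝ (Fin n))), (∀ i, IsFamily (U i)) →
      ∀ ρ : Fin (n + 1) → ℝ, (∀ i, HasShort (U i) (ρ i)) → (∀ i j, i ≠ j → ρ i + ρ j ≤ 1) →
      ∀ c, FarSum U c (√((n : ℝ) + 2 + ‖c‖ ^ 2))) ∧
    -- (5) all families but one contain an antipodal pair
    (∀ (n : ℕ) (U : Fin (n + 1) → Finset (EuclideanSpace ℝ (Fin n))), (∀ i, IsFamily (U i)) →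
      ∀ i₀, (∀ i, i ≠ i₀ → ∃ v ∈ U i, -v ∈ U i) →
      ∀ c, FarSum U c (√((n : ℝ) + 2 + ‖c‖ ^ 2))) :=
  main_all
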