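import Pool.Agent.Work.MP_4da8b1_Q1_helper46.ALL

/-!
# Sums of unit vectors drawn from `n + 1` balanced families: the lower bound `√(n + 2)` (Q1)
-/

namespace Pool.Agent.Results.MP_4da8b1_gt.PolyanskiiBound

/-- A family as in the problem: a finite set `U` of unit vectors of `ℝⁿ` with `2 ≤ |U| ≤ n + 1`
such that some combination of the members of `U` with all coefficients strictly positive is `0`. -/
structure IsFamily {n : ℕ} (U : Finset (EuclideanSpace ℝ (Fin n))) : Prop where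
  norm_eq_one : ∀ u ∈ U, ‖u‖ = 1
  two_le_card : 2 ≤ U.card
  card_le : U.card ≤ n + 1
  balanced : ∃ lam : EuclideanSpace ℝ (Fin n) → ℝ,
    (∀ u ∈ U, 0 < lam u) ∧ ∑ u ∈ U, lam u • u = 0

/-- **Q1.** For every `n ≥ 1`, all families `U_1, …, U_{n+1}` and every `c`, some choice of one
vector from each family has its sum at distance at least `√(n + 2)` from `c`. -/
theorem result (n : ℕ) (hn : 1 ≤ n) (U : Fin (n + 1) → Finset (EuclideanSpace ℝ (Fin n)))
    (hU : ∀ i, IsFamily (U i)) (c : EuclideanSpace ℝ (Fin n)) :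
    ∃ u : Fin (n + 1) → EuclideanSpace ℝ (Fin n), (∀ i, u i ∈ U i) ∧
      √((n : ℝ) + 2) ≤ ‖(∑ i, u i) - c‖ := by
  obtain ⟨u, hu, h⟩ := Pool.Agent.MP4da8b1Q1.far_sum n hn U (fun i => (hU i).norm_eq_one)
    (fun i => Finset.card_pos.1 (lt_of_lt_of_le Nat.zero_lt_two (hU i).two_le_card))
    (fun i => (hU i).balanced) c
  exact ⟨u, hu, (Real.sqrt_le_left (norm_nonneg _)).2 h⟩

end Pool.Agent.Results.MP_4da8b1_gt.PolyanskiiBound
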